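import Pool.Agent.U602.ZK.Main
import Pool.Agent.U602.AB.Family

set_option autoImplicit false
set_option linter.unusedSectionVars false

/-! The exponential sums of Zeckendorf additive functions in blocks. -/

namespace Pool.Agent.U602.ZK

open Finset Filter Topology
open Pool.Agent.H469R2.NK (e norm_e e_add e_zero)
open Pool.Agent.W147.PS (ff ff_compare ev_pow)
open Pool.Agent.U602.AB (Blocks)

section

variable {G : Type} [AddCommGroup G] [Fintype G]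

theorem blocks_zk (c : ℕ → G) (w : ℕ)
    (hgen : ∀ k, AddSubgroup.closure {g : G | ∃ i, k ≤ i ∧ i < k + w ∧
      g = c (i + 2) - c (i + 1) - c i} = ⊤) : Blocks (fz c) := by
  obtain ⟨δ₀, hδ0, hδ2, hδ⟩ := char_gap (G := G)
  obtain ⟨C, γ, hC, hγ0, hγ1, hbound⟩ := A_bound δ₀ hδ0 hδ2 w
  refine ⟨γ / 2, by positivity, ?_⟩
  intro δ hδpos
  filter_upwards [eventually_ge_atTop (1 : ℝ), (tendsto_rpow_atTop hδpos).eventually_ge_atTop 8,
    ev_pow (γ / 2 * δ) (γ * δ) (2 * C) (by nlinarith [mul_pos hγ0 hδpos])] with X hX1 hX8 p1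
  have hX0 : 0 < X := by linarith
  set K : ℕ := Nat.greatestFib ⌊X ^ δ⌋₊ with hK
  have hfl : ((⌊X ^ δ⌋₊ : ℕ) : ℝ) ≤ X ^ δ := Nat.floor_le (by positivity)
  have hfl2 : X ^ δ < (⌊X ^ δ⌋₊ : ℕ) + 1 := Nat.lt_floor_add_one _
  have hF1 : (Nat.fib K : ℝ) ≤ X ^ δ := by
    refine le_trans ?_ hfl
    exact_mod_cast Nat.fib_greatestFib_le _
  have h8 : 8 ≤ ⌊X ^ δ⌋₊ := Nat.le_floor (by norm_num; linarith)
  have hK2 : 2 ≤ K := by
    rw [hK, Nat.le_greatestFib, Nat.fib_two]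
    omega
  have hFK1 : Nat.fib (K + 1) = Nat.fib (K - 1) + Nat.fib K := Nat.fib_add_one (by omega)
  have hFle : Nat.fib (K - 1) ≤ Nat.fib K := Nat.fib_mono (by omega)
  have hF2 : X ^ δ / 2 ≤ (Nat.fib K : ℝ) := by
    have h1 : ⌊X ^ δ⌋₊ < Nat.fib (K + 1) := Nat.lt_fib_greatestFib_add_one _
    have h2 : ⌊X ^ δ⌋₊ + 1 ≤ 2 * Nat.fib K := by omega
    have h3 : ((⌊X ^ δ⌋₊ : ℕ) : ℝ) + 1 ≤ 2 * Nat.fib K := by exact_mod_cast h2
    linarith
  have hXδ : 0 < X ^ δ := by positivity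
  refine ⟨Nat.fib K, by linarith, hF1, ?_⟩
  intro x
  obtain ⟨N, hN1, hN2, hN3⟩ := Pf_exists K hK2 x
  refine ⟨N, hN2, by omega, ?_⟩
  intro χ hχ θ
  have h1 := hbound (fun k => χ (c k)) (fun k => χ.norm_apply _)
    (fun k => char_far c w hgen δ₀ hδ χ hχ k) θ K (by omega)
  have h2 : ∑ n ∈ range (Nat.fib K), χ (fz c (N + n)) * e (n * θ) =
      χ (fz c N) * A (fun k => χ (c k)) θ K := by
    rw [A, mul_sum]
    refine sum_congr rfl fun n hn => ?_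
    rw [fz_add c K N n hN1 (mem_range.1 hn), AddChar.map_add_eq_mul, char_fz c χ n,
      mul_comm (n : ℝ) θ]
    ring
  rw [h2, norm_mul, χ.norm_apply, one_mul]
  refine h1.trans ?_
  have hF0 : (0 : ℝ) < Nat.fib K := lt_of_lt_of_le (by positivity) hF2
  rw [sub_eq_add_neg, Real.rpow_add hF0, Real.rpow_one]
  have h3 : C * (Nat.fib K : ℝ) ^ (-γ) ≤ X ^ (-(γ / 2 * δ)) := by
    have h4 : (Nat.fib K : ℝ) ^ (-γ) ≤ (X ^ δ / 2) ^ (-γ) :=
      Real.rpow_le_rpow_of_nonpos (by positivity) hF2 (by linarith)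
    have h5 : (X ^ δ / 2) ^ (-γ) ≤ 2 * X ^ (-(γ * δ)) := by
      rw [Real.div_rpow (by positivity) (by norm_num), ← Real.rpow_mul hX0.le,
        div_eq_mul_inv, ← Real.rpow_neg (by norm_num), neg_neg]
      have h6 : (2 : ℝ) ^ γ ≤ 2 := by
        calc (2 : ℝ) ^ γ ≤ (2 : ℝ) ^ (1 : ℝ) :=
              Real.rpow_le_rpow_of_exponent_le (by norm_num) hγ1
          _ = 2 := Real.rpow_one _
      have h7 : δ * -γ = -(γ * δ) := by ring
      rw [h7, mul_comm]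
      gcongr
    calc C * (Nat.fib K : ℝ) ^ (-γ) ≤ C * (2 * X ^ (-(γ * δ))) := by
          gcongr
          exact h4.trans h5
      _ = (2 * C * X ^ (γ / 2 * δ)) * (X ^ (-(γ * δ)) * X ^ (-(γ / 2 * δ))) := by
          have h8 : X ^ (γ / 2 * δ) * X ^ (-(γ / 2 * δ)) = 1 := by
            rw [← Real.rpow_add hX0]; simp
          calc C * (2 * X ^ (-(γ * δ))) = 2 * C * X ^ (-(γ * δ)) * 1 := by ring
            _ = 2 * C * X ^ (-(γ * δ)) * (X ^ (γ / 2 * δ) * X ^ (-(γ / 2 * δ))) := by rw [h8]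
            _ = _ := by ring
      _ ≤ X ^ (γ * δ) * (X ^ (-(γ * δ)) * X ^ (-(γ / 2 * δ))) := by gcongr
      _ = X ^ (-(γ / 2 * δ)) := by
          rw [← mul_assoc, ← Real.rpow_add hX0]
          simp
  calc C * ((Nat.fib K : ℝ) * (Nat.fib K : ℝ) ^ (-γ)) =
        (Nat.fib K : ℝ) * (C * (Nat.fib K : ℝ) ^ (-γ)) := by ring
    _ ≤ (Nat.fib K : ℝ) * X ^ (-(γ / 2 * δ)) := by gcongr

end

end Pool.Agent.U602.ZK
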