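import Pool.Agent.U602.ZK.Sum
import Pool.Agent.U602.AB.Grp

set_option autoImplicit false
set_option linter.unusedSectionVars false

/-! Record gaps around numbers with a prescribed value of a function which is additive in the
Zeckendorf expansion, and their real multiples. -/

namespace Pool.Agent.U602.ZK

open Finset Filter Topology
open Pool.Agent.H469R2.NK (e norm_e e_add e_zero)
open Pool.Agent.W147.PS (ff ff_compare ev_pow)
open Pool.Agent.U602.AB (block_group_lin)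

/-- numbers to which everything below `fib K` may be added -/
def Pf (K N : ℕ) : Prop := ∀ m < Nat.fib K, Nat.zeckendorf (N + m) = Nat.zeckendorf N ++ Nat.zeckendorf m

lemma Pf_zero (K : ℕ) : Pf K 0 := by
  intro m _
  simp

lemma Pf_add (K R N' : ℕ) (hK : 2 ≤ K) (hR : K + 1 ≤ R) (h : Pf K N')
    (hN : N' + Nat.fib K ≤ Nat.fib (R - 1)) : Pf K (Nat.fib R + N') := by
  have hpos : 0 < Nat.fib K := Nat.fib_pos.2 (by omega)
  intro m hm
  rw [add_assoc, zeck_add R (N' + m) (by omega) (by omega), h m hm,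
    zeck_add R N' (by omega) (by omega)]
  rfl

lemma Pf_fib (K R : ℕ) (hK : 2 ≤ K) (hR : K + 1 ≤ R) : Pf K (Nat.fib R) := by
  have := Pf_add K R 0 hK hR (Pf_zero K) (by
    rw [zero_add]
    exact Nat.fib_mono (by omega))
  simpa using this

lemma zeck_fib (S : ℕ) (hS : 2 ≤ S) : Nat.zeckendorf (Nat.fib S) = [S] := by
  have := zeck_add S 0 hS (Nat.fib_pos.2 (by omega))
  simpa using this

lemma Pf_sep (K S N' : ℕ) (hK : 2 ≤ K) (hS : K ≤ S) (h : Pf K N') (hlt : N' < Nat.fib S) :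
    N' + Nat.fib K ≤ Nat.fib S := by
  by_contra hcon
  push Not at hcon
  have h1 := h (Nat.fib S - N') (by omega)
  have h2 : N' + (Nat.fib S - N') = Nat.fib S := by omega
  rw [h2, zeck_fib S (by omega)] at h1
  have h3 : Nat.zeckendorf (Nat.fib S - N') ≠ [] := by
    intro h0
    have := Nat.sum_zeckendorf_fib (Nat.fib S - N')
    rw [h0] at this
    simp at this
    omega
  have h4 : Nat.zeckendorf N' = [] := by
    rcases h5 : Nat.zeckendorf N' with _ | ⟨a, l⟩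
    · rfl
    · exfalso
      rw [h5] at h1
      rcases h6 : Nat.zeckendorf (Nat.fib S - N') with _ | ⟨a', l'⟩
      · exact h3 h6
      · rw [h6] at h1
        have := congrArg List.length h1
        simp at this
  have h5 : N' = 0 := by
    have := Nat.sum_zeckendorf_fib N'
    rw [h4] at this
    simpa using this.symm
  rw [h5] at hcon
  have := Nat.fib_mono hS
  omega

lemma Pf_exists (K : ℕ) (hK : 2 ≤ K) : ∀ x : ℕ, ∃ N, Pf K N ∧ x ≤ N ∧ N ≤ x + Nat.fib (K + 1) := by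
  intro x
  induction x using Nat.strong_induction_on with
  | _ x ih =>
    by_cases hx : x ≤ Nat.fib (K + 1)
    · exact ⟨Nat.fib (K + 1), Pf_fib K (K + 1) hK le_rfl, hx, by omega⟩
    · push Not at hx
      set R := Nat.greatestFib x with hR
      have hR1 : K + 1 ≤ R := Nat.le_greatestFib.2 hx.le
      have hR2 : Nat.fib R ≤ x := Nat.fib_greatestFib_le x
      have hR3 : x < Nat.fib (R + 1) := Nat.lt_fib_greatestFib_add_one x
      have hR4 : Nat.fib (R + 1) = Nat.fib (R - 1) + Nat.fib R := Nat.fib_add_one (by omega)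
      have hpos : 0 < Nat.fib R := Nat.fib_pos.2 (by omega)
      obtain ⟨N', hN1, hN2, hN3⟩ := ih (x - Nat.fib R) (by omega)
      by_cases hlt : N' < Nat.fib (R - 1)
      · have h1 := Pf_sep K (R - 1) N' hK (by omega) hN1 hlt
        exact ⟨Nat.fib R + N', Pf_add K R N' hK hR1 hN1 h1, by omega, by omega⟩
      · exact ⟨Nat.fib (R + 1), Pf_fib K (R + 1) hK (by omega), hR3.le, by omega⟩

section

variable {G : Type} [AddCommGroup G]

/-- the additive function with the values `c i` -/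
def fz (c : ℕ → G) (n : ℕ) : G := ((Nat.zeckendorf n).map c).sum

lemma fz_add (c : ℕ → G) (K N m : ℕ) (hN : Pf K N) (hm : m < Nat.fib K) :
    fz c (N + m) = fz c N + fz c m := by
  rw [fz, hN m hm, List.map_append, List.sum_append]
  rfl

lemma char_fz (c : ℕ → G) (χ : AddChar G ℂ) (n : ℕ) : χ (fz c n) = U (fun k => χ (c k)) n := by
  rw [fz, U]
  induction Nat.zeckendorf n with
  | nil => simp
  | cons a l ih => simp only [List.map_cons, List.sum_cons, List.prod_cons, AddChar.map_add_eq_mul, ih]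

variable [Fintype G]

lemma char_gap : ∃ δ₀ : ℝ, 0 < δ₀ ∧ δ₀ ≤ 2 ∧ ∀ (χ : AddChar G ℂ) (g : G), χ g ≠ 1 → δ₀ ≤ ‖χ g - 1‖ := by
  classical
  have h1 : ∀ p : AddChar G ℂ × G, ∃ d : ℝ, 0 < d ∧ (p.1 p.2 ≠ 1 → d ≤ ‖p.1 p.2 - 1‖) := by
    intro p
    by_cases hp : p.1 p.2 = 1
    · exact ⟨1, one_pos, fun h => absurd hp h⟩
    · exact ⟨‖p.1 p.2 - 1‖, norm_pos_iff.2 (sub_ne_zero.2 hp), fun _ => le_rfl⟩
  choose d hd1 hd2 using h1
  have hne : (univ : Finset (AddChar G ℂ × G)).Nonempty := ⟨(0, 0), mem_univ _⟩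
  refine ⟨min 2 (univ.inf' hne d), ?_, min_le_left _ _, ?_⟩
  · apply lt_min (by norm_num)
    rw [lt_inf'_iff]
    exact fun p _ => hd1 p
  · intro χ g hg
    exact (min_le_right _ _).trans ((inf'_le d (mem_univ (χ, g))).trans (hd2 (χ, g) hg))

lemma char_far (c : ℕ → G) (w : ℕ)
    (hgen : ∀ k, AddSubgroup.closure {g : G | ∃ i, k ≤ i ∧ i < k + w ∧
      g = c (i + 2) - c (i + 1) - c i} = ⊤) (δ₀ : ℝ)
    (hδ : ∀ (χ : AddChar G ℂ) (g : G), χ g ≠ 1 → δ₀ ≤ ‖χ g - 1‖)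
    (χ : AddChar G ℂ) (hχ : χ ≠ 0) (k : ℕ) :
    ∃ i, k ≤ i ∧ i < k + w ∧ δ₀ ≤ ‖χ (c (i + 2)) - χ (c (i + 1)) * χ (c i)‖ := by
  by_contra hcon
  push Not at hcon
  apply hχ
  have h1 : ∀ g ∈ AddSubgroup.closure {g : G | ∃ i, k ≤ i ∧ i < k + w ∧
      g = c (i + 2) - c (i + 1) - c i}, χ g = 1 := by
    intro g hg
    induction hg using AddSubgroup.closure_induction with
    | mem x hx =>
      obtain ⟨i, hi1, hi2, rfl⟩ := hx
      by_contra hne
      have h2 := hδ χ _ hne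
      have h3 := hcon i hi1 hi2
      have h4 : χ (c (i + 2)) - χ (c (i + 1)) * χ (c i) =
          (χ (c (i + 2) - c (i + 1) - c i) - 1) * χ (c (i + 1) + c i) := by
        have e1 : c (i + 2) = (c (i + 2) - c (i + 1) - c i) + (c (i + 1) + c i) := by abel
        have e2 : χ (c (i + 2)) = χ (c (i + 2) - c (i + 1) - c i) * χ (c (i + 1) + c i) := by
          rw [← AddChar.map_add_eq_mul, ← e1]
        have e3 : χ (c (i + 1) + c i) = χ (c (i + 1)) * χ (c i) := AddChar.map_add_eq_mul _ _ _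
        rw [sub_mul, one_mul, ← e2, e3]
      rw [h4, norm_mul, χ.norm_apply, mul_one] at h3
      linarith
    | zero => exact χ.map_zero_eq_one
    | add x y _ _ hx hy => rw [AddChar.map_add_eq_mul, hx, hy, one_mul]
    | neg x _ hx => rw [AddChar.map_neg_eq_inv, hx, inv_one]
  ext g
  have h2 := h1 g (by rw [hgen k]; exact AddSubgroup.mem_top g)
  rw [h2]
  rfl

open scoped Classical in
theorem main_zk (c : ℕ → G) (w : ℕ)
    (hgen : ∀ k, AddSubgroup.closure {g : G | ∃ i, k ≤ i ∧ i < k + w ∧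
      g = c (i + 2) - c (i + 1) - c i} = ⊤)
    (r : ℕ) (hr : 1 ≤ r) (α β : Fin r → ℝ) (hα : ∀ j, 0 < α j) (c₀ τ : ℝ) (hc : 0 < c₀) (hτ : 0 ≤ τ)
    (hdio : ∀ (H : ℕ) (h : Fin r → ℤ), h ≠ 0 → (∀ j, |h j| ≤ H) → ∀ m : ℤ,
      c₀ * (H : ℝ) ^ (-τ) ≤ |∑ j, (h j : ℝ) * α j - m|)
    (ε : ℝ) (hε : 0 < ε) :
    ∃ κ : ℝ, 0 < κ ∧ ∀ᶠ M : ℝ in atTop, ∀ g : G, ∃ n : ℕ, M < n ∧ (n : ℝ) ≤ M + M ^ ε ∧
      fz c n = g ∧ (∀ q : ℕ, q.Prime → κ * ff M < |(q : ℝ) - n|) ∧
        ∀ j, ∀ q : ℕ, q.Prime → κ * ff M < |(q : ℝ) - (α j * n + β j)| := by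
  obtain ⟨δ₀, hδ0, hδ2, hδ⟩ := char_gap (G := G)
  obtain ⟨C, γ, hC, hγ0, hγ1, hbound⟩ := A_bound δ₀ hδ0 hδ2 w
  set η : ℝ := min (1 / 2) (min (ε * γ / 8) (ε / (2 * (τ + 4)))) with hη
  have hη0 : 0 < η := by rw [hη]; positivity
  have hη1 : η ≤ 1 / 2 := min_le_left _ _
  have hη2 : η ≤ ε * γ / 8 := (min_le_right _ _).trans (min_le_left _ _)
  have hη3 : η ≤ ε / (2 * (τ + 4)) := (min_le_right _ _).trans (min_le_right _ _)
  rw [le_div_iff₀ (by positivity)] at hη3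
  obtain ⟨κ, hκ, hblock⟩ := block_group_lin (G := G) r hr α β hα c₀ τ hc hτ hdio η hη0 hη1
  refine ⟨κ, hκ, ?_⟩
  filter_upwards [hblock, eventually_ge_atTop (1 : ℝ), (tendsto_rpow_atTop hε).eventually_ge_atTop 64,
    ev_pow ((τ + 4) * η) ε 16 (by nlinarith),
    ev_pow (2 * η) (ε * γ) (16 * C) (by nlinarith [mul_pos hε hγ0])]
    with M hM hM1 hM2 hMa hMb
  intro g
  have hM0 : 0 < M := by linarith
  set K : ℕ := Nat.greatestFib ⌊M ^ ε / 8⌋₊ with hK
  have hfl : ((⌊M ^ ε / 8⌋₊ : ℕ) : ℝ) ≤ M ^ ε / 8 := Nat.floor_le (by positivity)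
  have hfl2 : M ^ ε / 8 < (⌊M ^ ε / 8⌋₊ : ℕ) + 1 := Nat.lt_floor_add_one _
  have hF1 : (Nat.fib K : ℝ) ≤ M ^ ε / 8 := by
    refine le_trans ?_ hfl
    exact_mod_cast Nat.fib_greatestFib_le _
  have h8 : 8 ≤ ⌊M ^ ε / 8⌋₊ := Nat.le_floor (by norm_num; linarith)
  have hK2 : 2 ≤ K := by
    rw [hK, Nat.le_greatestFib, Nat.fib_two]
    omega
  have hFK1 : Nat.fib (K + 1) = Nat.fib (K - 1) + Nat.fib K := Nat.fib_add_one (by omega)
  have hFle : Nat.fib (K - 1) ≤ Nat.fib K := Nat.fib_mono (by omega)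
  have hF2 : M ^ ε / 16 ≤ (Nat.fib K : ℝ) := by
    have h1 : ⌊M ^ ε / 8⌋₊ < Nat.fib (K + 1) := Nat.lt_fib_greatestFib_add_one _
    have h2 : ⌊M ^ ε / 8⌋₊ + 1 ≤ 2 * Nat.fib K := by omega
    have h3 : ((⌊M ^ ε / 8⌋₊ : ℕ) : ℝ) + 1 ≤ 2 * Nat.fib K := by exact_mod_cast h2
    linarith
  obtain ⟨N, hN1, hN2, hN3⟩ := Pf_exists K hK2 (⌊M⌋₊ + 1)
  have hMN : M < N := by
    refine lt_of_lt_of_le (Nat.lt_floor_add_one M) ?_
    exact_mod_cast hN2
  obtain ⟨n, hn, hng, h1, h2⟩ := hM N (Nat.fib K) hMN.le (by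
    refine le_trans ?_ hF2
    linarith) (fz c) (by
    intro χ hχ x
    have h1 := hbound (fun k => χ (c k)) (fun k => χ.norm_apply _)
      (fun k => char_far c w hgen δ₀ hδ χ hχ k) x K (by omega)
    have h2 : ∑ n ∈ range (Nat.fib K), χ (fz c n) * e (n * x) = A (fun k => χ (c k)) x K := by
      rw [A]
      refine sum_congr rfl fun n _ => ?_
      rw [char_fz, mul_comm (n : ℝ) x]
    rw [h2]
    refine h1.trans ?_
    have hF0 : (0 : ℝ) < Nat.fib K := lt_of_lt_of_le (by positivity) hF2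
    rw [sub_eq_add_neg, Real.rpow_add hF0, Real.rpow_one]
    have h3 : C * (Nat.fib K : ℝ) ^ (-γ) ≤ M ^ (-(2 * η)) := by
      have h4 : (Nat.fib K : ℝ) ^ (-γ) ≤ (M ^ ε / 16) ^ (-γ) :=
        Real.rpow_le_rpow_of_nonpos (by positivity) hF2 (by linarith)
      have h5 : (M ^ ε / 16) ^ (-γ) ≤ 16 * M ^ (-(ε * γ)) := by
        rw [Real.div_rpow (by positivity) (by norm_num), ← Real.rpow_mul hM0.le,
          div_eq_mul_inv, ← Real.rpow_neg (by norm_num), neg_neg]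
        have h6 : (16 : ℝ) ^ γ ≤ 16 := by
          calc (16 : ℝ) ^ γ ≤ (16 : ℝ) ^ (1 : ℝ) :=
                Real.rpow_le_rpow_of_exponent_le (by norm_num) hγ1
            _ = 16 := Real.rpow_one _
        have h7 : ε * -γ = -(ε * γ) := by ring
        rw [h7, mul_comm]
        gcongr
      calc C * (Nat.fib K : ℝ) ^ (-γ) ≤ C * (16 * M ^ (-(ε * γ))) := by
            gcongr
            exact h4.trans h5
        _ = (16 * C * M ^ (2 * η)) * (M ^ (-(ε * γ)) * M ^ (-(2 * η))) := by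
            have h8 : M ^ (2 * η) * M ^ (-(2 * η)) = 1 := by
              rw [← Real.rpow_add hM0]; simp
            calc C * (16 * M ^ (-(ε * γ))) = 16 * C * M ^ (-(ε * γ)) * 1 := by ring
              _ = 16 * C * M ^ (-(ε * γ)) * (M ^ (2 * η) * M ^ (-(2 * η))) := by rw [h8]
              _ = _ := by ring
        _ ≤ M ^ (ε * γ) * (M ^ (-(ε * γ)) * M ^ (-(2 * η))) := by gcongr
        _ = M ^ (-(2 * η)) := by
            rw [← mul_assoc, ← Real.rpow_add hM0]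
            simp
    calc C * ((Nat.fib K : ℝ) * (Nat.fib K : ℝ) ^ (-γ)) =
          (Nat.fib K : ℝ) * (C * (Nat.fib K : ℝ) ^ (-γ)) := by ring
      _ ≤ (Nat.fib K : ℝ) * M ^ (-(2 * η)) := by gcongr) (g - fz c N)
  refine ⟨N + n, ?_, ?_, ?_, h1, h2⟩
  · push_cast
    have : (0 : ℝ) ≤ n := Nat.cast_nonneg n
    linarith
  · have h3 : N + n ≤ ⌊M⌋₊ + 1 + Nat.fib (K + 1) + Nat.fib K := by omega
    have h4 : N + n ≤ ⌊M⌋₊ + 1 + 3 * Nat.fib K := by omega
    have h5 : ((N + n : ℕ) : ℝ) ≤ ⌊M⌋₊ + 1 + 3 * Nat.fib K := by exact_mod_cast h4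
    have h6 := Nat.floor_le hM0.le
    linarith
  · rw [fz_add c K N n hN1 hn, hng]
    abel

end

end Pool.Agent.U602.ZK
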