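import Pool.Agent.U602.AB.Lin

set_option autoImplicit false
set_option linter.unusedSectionVars false

/-! Exponential sums with functions which are additive in the Zeckendorf expansion. -/

namespace Pool.Agent.U602.ZK

open Finset
open Pool.Agent.H469R2.NK (e norm_e e_add e_zero)

lemma greatest_add (k m : ℕ) (hk : 2 ≤ k) (hm : m < Nat.fib (k - 1)) :
    Nat.greatestFib (Nat.fib k + m) = k := by
  apply le_antisymm
  · rw [← Nat.lt_succ_iff, Nat.greatestFib_lt]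
    have h1 : Nat.fib (k + 1) = Nat.fib (k - 1) + Nat.fib k := Nat.fib_add_one (by omega)
    rw [Nat.succ_eq_add_one, h1]
    omega
  · rw [Nat.le_greatestFib]
    omega

lemma zeck_add (k m : ℕ) (hk : 2 ≤ k) (hm : m < Nat.fib (k - 1)) :
    Nat.zeckendorf (Nat.fib k + m) = k :: Nat.zeckendorf m := by
  have h0 : 0 < Nat.fib k := Nat.fib_pos.2 (by omega)
  rw [Nat.zeckendorf_of_pos (by omega), greatest_add k m hk hm]
  congr 2
  omega

/-- multiplicative functions of the Zeckendorf expansion -/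
noncomputable def U (u : ℕ → ℂ) (n : ℕ) : ℂ := ((Nat.zeckendorf n).map u).prod

lemma U_zero (u : ℕ → ℂ) : U u 0 = 1 := by simp [U]

lemma U_add (u : ℕ → ℂ) (k m : ℕ) (hk : 2 ≤ k) (hm : m < Nat.fib (k - 1)) :
    U u (Nat.fib k + m) = u k * U u m := by
  rw [U, zeck_add k m hk hm, List.map_cons, List.prod_cons, U]

/-- the sums over `m < fib k` -/
noncomputable def A (u : ℕ → ℂ) (θ : ℝ) (k : ℕ) : ℂ :=
  ∑ m ∈ range (Nat.fib k), U u m * e (θ * m)

lemma A_rec (u : ℕ → ℂ) (θ : ℝ) (k : ℕ) (hk : 1 ≤ k) :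
    A u θ (k + 2) = A u θ (k + 1) + u (k + 1) * e (θ * Nat.fib (k + 1)) * A u θ k := by
  have h1 : Nat.fib (k + 2) = Nat.fib (k + 1) + Nat.fib k := by
    rw [Nat.fib_add_two]; ring
  rw [A, h1, sum_range_add, A, A, mul_sum]
  congr 1
  refine sum_congr rfl fun m hm => ?_
  rw [mem_range] at hm
  rw [U_add u (k + 1) m (by omega) (by simpa using hm)]
  have h2 : e (θ * ((Nat.fib (k + 1) + m : ℕ) : ℝ)) = e (θ * Nat.fib (k + 1)) * e (θ * m) := by
    rw [← e_add]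
    congr 1
    push_cast
    ring
  rw [h2]
  ring

section

variable (u : ℕ → ℂ) (hu : ∀ k, ‖u k‖ = 1) (θ : ℝ)

/-- both sums are bounded by `t fib` -/
def P (t : ℝ) (k : ℕ) : Prop :=
  ‖A u θ k‖ ≤ t * Nat.fib k ∧ ‖A u θ (k + 1)‖ ≤ t * Nat.fib (k + 1)

include hu

lemma norm_step (k : ℕ) (hk : 1 ≤ k) : ‖A u θ (k + 2)‖ ≤ ‖A u θ (k + 1)‖ + ‖A u θ k‖ := by
  rw [A_rec u θ k hk]
  refine (norm_add_le _ _).trans (le_of_eq ?_)
  rw [norm_mul, norm_mul, norm_e, hu, one_mul, one_mul]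

lemma P_step (t : ℝ) (k : ℕ) (hk : 1 ≤ k) (h : P u θ t k) : P u θ t (k + 1) := by
  refine ⟨h.2, (norm_step u hu θ k hk).trans ?_⟩
  have h1 : ((Nat.fib (k + 2) : ℕ) : ℝ) = Nat.fib (k + 1) + Nat.fib k := by
    rw [Nat.fib_add_two]; push_cast; ring
  have h2 := h.1
  have h3 := h.2
  show _ ≤ t * ((Nat.fib (k + 2) : ℕ) : ℝ)
  rw [h1]
  linarith

lemma P_mono (t : ℝ) (k : ℕ) (hk : 1 ≤ k) (n : ℕ) (h : P u θ t k) : P u θ t (k + n) := by
  induction n with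
  | zero => exact h
  | succ n ih => exact P_step u hu θ t (k + n) (by omega) ih

lemma P_contr (t δ : ℝ) (ht : 0 ≤ t) (hδ0 : 0 ≤ δ) (hδ1 : δ ≤ 2) (k : ℕ) (hk : 1 ≤ k)
    (h : P u θ t k) (hz : ‖1 + u (k + 2) * e (θ * Nat.fib (k + 2))‖ ≤ 2 - δ) :
    P u θ (t * (1 - δ / 6)) (k + 3) := by
  set F0 : ℝ := ((Nat.fib k : ℕ) : ℝ) with hF0
  set F1 : ℝ := ((Nat.fib (k + 1) : ℕ) : ℝ) with hF1
  have e2 : ((Nat.fib (k + 2) : ℕ) : ℝ) = F1 + F0 := by
    rw [Nat.fib_add_two]; push_cast; ring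
  have e3 : ((Nat.fib (k + 3) : ℕ) : ℝ) = 2 * F1 + F0 := by
    rw [Nat.fib_add_two (n := k + 1)]; push_cast; rw [e2]; ring
  have e4 : ((Nat.fib (k + 4) : ℕ) : ℝ) = 3 * F1 + 2 * F0 := by
    rw [Nat.fib_add_two (n := k + 2)]; push_cast; rw [e2, e3]; ring
  have hF01 : F0 ≤ F1 := by
    rw [hF0, hF1]; exact_mod_cast Nat.fib_mono (Nat.le_succ k)
  have hF00 : 0 ≤ F0 := Nat.cast_nonneg _
  have h0 := h.1
  have h1 := h.2
  have h2 : ‖A u θ (k + 2)‖ ≤ t * (F1 + F0) := by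
    refine (norm_step u hu θ k hk).trans ?_
    linarith
  have h3 : ‖A u θ (k + 3)‖ ≤ t * ((2 - δ) * F1 + F0) := by
    have g1 : A u θ (k + 3) = (1 + u (k + 2) * e (θ * Nat.fib (k + 2))) * A u θ (k + 1) +
        u (k + 1) * e (θ * Nat.fib (k + 1)) * A u θ k := by
      rw [A_rec u θ (k + 1) (by omega), A_rec u θ k hk]
      ring
    rw [g1]
    refine (norm_add_le _ _).trans ?_
    rw [norm_mul, norm_mul, norm_mul, norm_e, hu, one_mul, one_mul]
    have g2 : ‖1 + u (k + 2) * e (θ * Nat.fib (k + 2))‖ * ‖A u θ (k + 1)‖ ≤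
        (2 - δ) * (t * F1) := by
      apply mul_le_mul hz h1 (norm_nonneg _) (by linarith)
    have g3 : t * ((2 - δ) * F1 + F0) = (2 - δ) * (t * F1) + t * F0 := by ring
    rw [g3]
    linarith
  have h4 : ‖A u θ (k + 4)‖ ≤ t * ((3 - δ) * F1 + 2 * F0) := by
    refine (norm_step u hu θ (k + 2) (by omega)).trans ?_
    have : t * ((3 - δ) * F1 + 2 * F0) = t * ((2 - δ) * F1 + F0) + t * (F1 + F0) := by ring
    rw [this]
    linarith
  constructor
  · refine h3.trans ?_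
    rw [e3, mul_assoc]
    apply mul_le_mul_of_nonneg_left _ ht
    nlinarith
  · refine h4.trans ?_
    show _ ≤ t * (1 - δ / 6) * ((Nat.fib (k + 4) : ℕ) : ℝ)
    rw [e4, mul_assoc]
    apply mul_le_mul_of_nonneg_left _ ht
    nlinarith

/-- among consecutive factors there is one which is far from `1` -/
lemma exists_far (δ₀ : ℝ) (i : ℕ) (hi : δ₀ ≤ ‖u (i + 2) - u (i + 1) * u i‖) :
    ∃ j, i ≤ j ∧ j ≤ i + 2 ∧ δ₀ / 3 ≤ ‖1 - u j * e (θ * Nat.fib j)‖ := by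
  by_contra hcon
  push Not at hcon
  have h0 := hcon i le_rfl (by omega)
  have h1 := hcon (i + 1) (by omega) (by omega)
  have h2 := hcon (i + 2) (by omega) le_rfl
  set z0 := u i * e (θ * Nat.fib i) with hz0
  set z1 := u (i + 1) * e (θ * Nat.fib (i + 1)) with hz1
  set z2 := u (i + 2) * e (θ * Nat.fib (i + 2)) with hz2
  have e1 : (u (i + 2) - u (i + 1) * u i) * e (θ * Nat.fib (i + 2)) = z2 - z1 * z0 := by
    have : e (θ * Nat.fib (i + 2)) = e (θ * Nat.fib (i + 1)) * e (θ * Nat.fib i) := by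
      rw [← e_add, Nat.fib_add_two]
      congr 1
      push_cast
      ring
    rw [hz2, hz1, hz0, this]
    ring
  have e2 : ‖u (i + 2) - u (i + 1) * u i‖ = ‖z2 - z1 * z0‖ := by
    rw [← e1, norm_mul, norm_e, mul_one]
  have e3 : z2 - z1 * z0 = -(1 - z2) + (1 - z1) + z1 * (1 - z0) := by ring
  have e4 : ‖z1‖ = 1 := by rw [hz1, norm_mul, norm_e, hu, one_mul]
  have e5 : ‖z2 - z1 * z0‖ ≤ ‖1 - z2‖ + ‖1 - z1‖ + ‖1 - z0‖ := by
    rw [e3]
    refine (norm_add_le _ _).trans ?_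
    rw [norm_mul, e4, one_mul]
    have := norm_add_le (-(1 - z2)) (1 - z1)
    rw [norm_neg] at this
    linarith
  rw [e2] at hi
  linarith

omit hu in
lemma far_norm (z : ℂ) (hz : ‖z‖ = 1) (δ : ℝ) (hδ : 0 ≤ δ) (h : δ ≤ ‖1 - z‖) :
    ‖1 + z‖ ≤ 2 - δ ^ 2 / 4 := by
  have h1 : ‖1 + z‖ ^ 2 + ‖1 - z‖ ^ 2 = 4 := by
    have := parallelogram_law_with_norm ℝ (1 : ℂ) z
    rw [hz, norm_one] at this
    nlinarith
  have h2 : δ ^ 2 ≤ ‖1 - z‖ ^ 2 := by gcongr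
  have h3 : 0 ≤ ‖1 + z‖ := norm_nonneg _
  have h4 : δ ^ 2 ≤ 4 := by nlinarith
  nlinarith [sq_nonneg (δ ^ 2 / 4)]

/-- the contraction in a window -/
lemma P_window (δ₀ : ℝ) (hδ₀ : 0 ≤ δ₀) (hδ₁ : δ₀ ≤ 2) (w : ℕ) (t : ℝ) (ht : 0 ≤ t) (k : ℕ) (hk : 1 ≤ k)
    (hw : ∃ i, k + 2 ≤ i ∧ i < k + 2 + w ∧ δ₀ ≤ ‖u (i + 2) - u (i + 1) * u i‖)
    (h : P u θ t k) : P u θ (t * (1 - δ₀ ^ 2 / 216)) (k + (w + 5)) := by
  obtain ⟨i, hi1, hi2, hi3⟩ := hw
  obtain ⟨j, hj1, hj2, hj3⟩ := exists_far u hu θ δ₀ i hi3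
  obtain ⟨n, rfl⟩ : ∃ n, j = k + n + 2 := ⟨j - k - 2, by omega⟩
  have h1 := P_mono u hu θ t k hk n h
  have h2 := far_norm (u (k + n + 2) * e (θ * Nat.fib (k + n + 2)))
    (by rw [norm_mul, norm_e, hu, one_mul]) (δ₀ / 3) (by positivity) hj3
  have h3 := P_contr u hu θ t ((δ₀ / 3) ^ 2 / 4) ht (by positivity) (by nlinarith) (k + n) (by omega)
    h1 h2
  have h4 := P_mono u hu θ _ (k + n + 3) (by omega) (k + (w + 5) - (k + n + 3)) h3
  have h5 : k + n + 3 + (k + (w + 5) - (k + n + 3)) = k + (w + 5) := by omega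
  rw [h5] at h4
  have h6 : t * (1 - (δ₀ / 3) ^ 2 / 4 / 6) = t * (1 - δ₀ ^ 2 / 216) := by ring
  rw [h6] at h4
  exact h4

end

/-- **the bound** -/
theorem A_bound (δ₀ : ℝ) (hδ₀ : 0 < δ₀) (hδ₁ : δ₀ ≤ 2) (w : ℕ) :
    ∃ C γ : ℝ, 0 < C ∧ 0 < γ ∧ γ ≤ 1 ∧ ∀ u : ℕ → ℂ, (∀ k, ‖u k‖ = 1) →
      (∀ k, ∃ i, k ≤ i ∧ i < k + w ∧ δ₀ ≤ ‖u (i + 2) - u (i + 1) * u i‖) →
      ∀ (θ : ℝ) (K : ℕ), 1 ≤ K → ‖A u θ K‖ ≤ C * (Nat.fib K : ℝ) ^ (1 - γ) := by
  set a : ℝ := 1 - δ₀ ^ 2 / 216 with ha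
  have ha0 : 1 / 2 ≤ a := by rw [ha]; nlinarith
  have ha1 : a < 1 := by rw [ha]; nlinarith
  set W : ℕ := w + 5 with hW
  have hW0 : (0 : ℝ) < W := by rw [hW]; positivity
  have hla : Real.log a < 0 := Real.log_neg (by linarith) ha1
  have hla2 : -Real.log a ≤ Real.log 2 := by
    rw [← Real.log_inv]
    apply Real.log_le_log (by positivity)
    rw [inv_le_comm₀ (by linarith) (by norm_num)]
    linarith
  have hl2 : 0 < Real.log 2 := Real.log_pos (by norm_num)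
  set γ : ℝ := -Real.log a / (W * Real.log 2) with hγ
  have hγ0 : 0 < γ := div_pos (by linarith) (by positivity)
  have hγ1 : γ ≤ 1 := by
    rw [hγ, div_le_one (by positivity)]
    have : (1 : ℝ) ≤ W := by rw [hW]; push_cast; have : (0 : ℝ) ≤ w := Nat.cast_nonneg w; linarith
    nlinarith
  refine ⟨2 / a, γ, by positivity, hγ0, hγ1, ?_⟩
  intro u hu hfar θ K hK
  -- windows
  have hP : ∀ n : ℕ, P u θ (a ^ n) (1 + n * W) := by
    intro n
    induction n with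
    | zero =>
      refine ⟨?_, ?_⟩ <;> simp [A, U_zero, norm_e]
    | succ n ih =>
      have h1 := P_window u hu θ δ₀ hδ₀.le hδ₁ w (a ^ n) (by positivity) (1 + n * W) (by omega)
        (hfar _) ih
      rw [pow_succ]
      have h2 : 1 + (n + 1) * W = 1 + n * W + (w + 5) := by rw [hW]; ring
      rw [h2]
      exact h1
  obtain ⟨n, m, hm, hKn⟩ : ∃ n m, m < W ∧ K = 1 + n * W + m :=
    ⟨(K - 1) / W, (K - 1) % W, Nat.mod_lt _ (by omega), by
      have := Nat.div_add_mod (K - 1) W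
      rw [mul_comm] at this
      omega⟩
  have h1 := (P_mono u hu θ (a ^ n) (1 + n * W) (by omega) m (hP n)).1
  rw [← hKn] at h1
  have hF0 : (0 : ℝ) < Nat.fib K := by exact_mod_cast Nat.fib_pos.2 (by omega)
  refine h1.trans ?_
  have h2 : (Nat.fib K : ℝ) ^ (1 - γ) = Nat.fib K * (Nat.fib K : ℝ) ^ (-γ) := by
    rw [sub_eq_add_neg, Real.rpow_add hF0, Real.rpow_one]
  rw [h2]
  have h3 : (2 : ℝ) ^ (-(γ * K)) ≤ (Nat.fib K : ℝ) ^ (-γ) := by
    have h4 : (Nat.fib K : ℝ) ≤ (2 : ℝ) ^ K := by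
      have : Nat.fib K ≤ 2 ^ K := by
        clear h1 h2 hF0 hKn hK
        induction K using Nat.strong_induction_on with
        | _ K ih =>
          match K with
          | 0 => simp
          | 1 => simp
          | k + 2 =>
            rw [Nat.fib_add_two]
            have g1 := ih k (by omega)
            have g2 := ih (k + 1) (by omega)
            have g3 : 2 ^ (k + 2) = 2 ^ (k + 1) + 2 ^ (k + 1) := by ring
            have g4 : 2 ^ k ≤ 2 ^ (k + 1) := Nat.pow_le_pow_right (by norm_num) (by omega)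
            omega
      exact_mod_cast this
    have h5 : (2 : ℝ) ^ (-(γ * K)) = ((2 : ℝ) ^ K) ^ (-γ) := by
      rw [← Real.rpow_natCast, ← Real.rpow_mul (by norm_num)]
      congr 1
      ring
    rw [h5]
    exact Real.rpow_le_rpow_of_nonpos hF0 h4 (by linarith)
  have h6 : a ^ n ≤ 1 / a * (2 : ℝ) ^ (-(γ * K)) := by
    have g1 : (2 : ℝ) ^ (-(γ * K)) = Real.exp (Real.log a * (K / W)) := by
      rw [Real.rpow_def_of_pos (by norm_num)]
      congr 1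
      rw [hγ]
      field_simp
    have g2 : a ^ n = Real.exp (Real.log a * n) := by
      rw [← Real.rpow_natCast, Real.rpow_def_of_pos (by linarith)]
    have g3 : 1 / a = Real.exp (-Real.log a) := by
      rw [Real.exp_neg, Real.exp_log (by linarith), one_div]
    rw [g1, g2, g3, ← Real.exp_add]
    apply Real.exp_le_exp.mpr
    have g4 : (K : ℝ) / W ≤ n + 1 := by
      rw [div_le_iff₀ hW0]
      have : K ≤ (n + 1) * W := by
        rw [hKn]
        nlinarith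
      exact_mod_cast this
    nlinarith
  calc a ^ n * (Nat.fib K : ℝ) ≤ (1 / a * (2 : ℝ) ^ (-(γ * K))) * Nat.fib K := by gcongr
    _ ≤ (1 / a * (Nat.fib K : ℝ) ^ (-γ)) * Nat.fib K := by gcongr
    _ ≤ (2 / a * (Nat.fib K : ℝ) ^ (-γ)) * Nat.fib K := by
        gcongr
        norm_num
    _ = _ := by ring

end Pool.Agent.U602.ZK
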